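import Pool.Agent.W544.K3.Defs

open Module Finset

namespace Pool.Agent.V5helper11.DRB

open Pool.Agent.W544.K3

section
variable {U : Type} [AddCommGroup U] [Module ℝ U]

theorem wedge_brk {B : U →ₗ[ℝ] U →ₗ[ℝ] ℝ} {y : End ℝ U} (hy : Skew B y) (u v : U) :
    y * wedge B u v - wedge B u v * y = wedge B (y u) v + wedge B u (y v) := by
  ext w
  have h1 : B (y u) w = -(B u (y w)) := by have := hy u w; linarith
  have h2 : B (y v) w = -(B v (y w)) := by have := hy v w; linarith
  simp only [LinearMap.sub_apply, Module.End.mul_apply, LinearMap.add_apply, wedge_apply, map_sub,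
    map_smul, h1, h2]
  module

theorem wedge_add_right (B : U →ₗ[ℝ] U →ₗ[ℝ] ℝ) (u v w : U) :
    wedge B u (v + w) = wedge B u v + wedge B u w := by
  ext z
  simp only [LinearMap.add_apply, wedge_apply, map_add, smul_add, add_smul]
  abel

theorem wedge_smul_right (B : U →ₗ[ℝ] U →ₗ[ℝ] ℝ) (u v : U) (c : ℝ) :
    wedge B u (c • v) = c • wedge B u v := by
  ext z
  simp only [LinearMap.smul_apply, wedge_apply, map_smul, smul_sub, smul_smul, smul_eq_mul]
  rw [mul_comm]

theorem wedge_swap (B : U →ₗ[ℝ] U →ₗ[ℝ] ℝ) (u v : U) : wedge B u v = -wedge B v u := by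
  ext z
  simp [wedge_apply]

theorem wedge_self (B : U →ₗ[ℝ] U →ₗ[ℝ] ℝ) (u : U) : wedge B u u = 0 := by
  ext z
  simp [wedge_apply]

theorem wedge_add_left (B : U →ₗ[ℝ] U →ₗ[ℝ] ℝ) (u v w : U) :
    wedge B (u + v) w = wedge B u w + wedge B v w := by
  rw [wedge_swap, wedge_add_right, wedge_swap B u w, wedge_swap B v w]; abel

theorem wedge_smul_left (B : U →ₗ[ℝ] U →ₗ[ℝ] ℝ) (u v : U) (c : ℝ) :
    wedge B (c • u) v = c • wedge B u v := by
  rw [wedge_swap, wedge_smul_right, wedge_swap B u v, smul_neg]

theorem wedge_zero_left (B : U →ₗ[ℝ] U →ₗ[ℝ] ℝ) (v : U) : wedge B 0 v = 0 := by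
  ext z; simp [wedge_apply]

/-- `u ↦ u ∧ v` as linear map in `v` -/
def wedgeR (B : U →ₗ[ℝ] U →ₗ[ℝ] ℝ) (u : U) : U →ₗ[ℝ] End ℝ U where
  toFun := wedge B u
  map_add' := wedge_add_right B u
  map_smul' c v := wedge_smul_right B u v c

theorem nondeg' {B : U →ₗ[ℝ] U →ₗ[ℝ] ℝ} (hB : Sig2 B) {v : U} (h : ∀ w, B v w = 0) : v = 0 := by
  obtain ⟨_, p, q, _, _, _, hneg⟩ := hB
  by_contra hv
  have := hneg v hv (h p) (h q)
  rw [h v] at this
  exact lt_irrefl _ this

/-- a skew operator is in every subspace which contains the wedges -/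
theorem skew_mem [FiniteDimensional ℝ U] {B : U →ₗ[ℝ] U →ₗ[ℝ] ℝ} (hB : Sig2 B)
    {n : Submodule ℝ (End ℝ U)} (hn : ∀ u v, wedge B u v ∈ n) {y : End ℝ U} (hy : Skew B y) :
    y ∈ n := by
  have hsym := hB.1
  have hnd : LinearMap.BilinForm.Nondegenerate B := by
    refine ⟨fun v hv => nondeg' hB hv, fun v hv => nondeg' hB fun w => ?_⟩
    rw [hsym]; exact hv w
  have hs : LinearMap.BilinForm.IsSymm B := ⟨fun u v => by simpa using hsym u v⟩
  let b := Module.finBasis ℝ U
  let b' := LinearMap.BilinForm.dualBasis B hnd b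
  have k1 : ∀ w, ∑ i, B (b' i) w • b i = w := by
    intro w
    have : ∑ i, (B (b' i)).smulRight (b i) = LinearMap.id := by
      apply b.ext
      intro j
      simp only [LinearMap.coe_sum, Finset.sum_apply, LinearMap.smulRight_apply, LinearMap.id_apply]
      rw [Finset.sum_eq_single j]
      · rw [LinearMap.BilinForm.apply_dualBasis_left]; simp
      · intro i _ hij
        rw [LinearMap.BilinForm.apply_dualBasis_left, if_neg (Ne.symm hij), zero_smul]
      · intro h; exact absurd (Finset.mem_univ _) h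
    have := LinearMap.congr_fun this w
    simpa using this
  have k2 : ∀ w, ∑ i, B (b i) w • b' i = w := by
    intro w
    have : ∑ i, (B (b i)).smulRight (b' i) = LinearMap.id := by
      apply b'.ext
      intro j
      simp only [LinearMap.coe_sum, Finset.sum_apply, LinearMap.smulRight_apply, LinearMap.id_apply]
      rw [Finset.sum_eq_single j]
      · rw [LinearMap.BilinForm.apply_dualBasis_right hnd hs b]; simp
      · intro i _ hij
        rw [LinearMap.BilinForm.apply_dualBasis_right hnd hs b, if_neg hij, zero_smul]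
      · intro h; exact absurd (Finset.mem_univ _) h
    have := LinearMap.congr_fun this w
    simpa using this
  have k3 : y = (1 / 2 : ℝ) • ∑ i, wedge B (b i) (y (b' i)) := by
    ext w
    have e1 : ∑ i, wedge B (b i) (y (b' i)) w = (2 : ℝ) • y w := by
      simp only [wedge_apply, Finset.sum_sub_distrib]
      have e2 : ∑ i, B (b i) w • y (b' i) = y w := by
        conv_rhs => rw [← k2 w]
        simp [map_sum]
      have e3 : ∑ i, B (y (b' i)) w • b i = -(y w) := by
        conv_rhs => rw [← k1 (y w)]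
        rw [← Finset.sum_neg_distrib]
        refine Finset.sum_congr rfl fun i _ => ?_
        have := hy (b' i) w
        rw [← neg_smul]
        congr 1
        linarith
      rw [e2, e3]
      module
    simp only [LinearMap.smul_apply, LinearMap.coe_sum, Finset.sum_apply]
    rw [e1]
    module
  rw [k3]
  exact Submodule.smul_mem _ _ (Submodule.sum_mem _ fun i _ => hn _ _)

/-- eigenvectors of `wedge f e` -/
theorem eig_wedge {B : U →ₗ[ℝ] U →ₗ[ℝ] ℝ} (hsym : ∀ u v, B u v = B v u) {e f : U}
    (hef : Hyp B e f) {l : ℝ} {v : U} (h : wedge B f e v = l • v) (hl : l < 0) :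
    v = 0 ∨ (l = -1 ∧ v = (B e v) • f) := by
  obtain ⟨hee, hff, hef⟩ := hef
  have hfe : B f e = 1 := by rw [hsym, hef]
  rw [wedge_apply] at h
  have h1 := congrArg (B f) h
  have h2 := congrArg (B e) h
  simp only [map_sub, map_smul, smul_eq_mul, hfe, hff, hee, hef, mul_one, mul_zero, sub_zero,
    zero_sub] at h1 h2
  have f0 : B f v = 0 := by
    by_contra hne
    have : l = 1 := by
      apply mul_right_cancel₀ hne
      rw [← h1, one_mul]
    linarith
  rw [f0, zero_smul, zero_sub] at h
  by_cases e0 : B e v = 0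
  · left
    rw [e0, zero_smul, neg_zero] at h
    rcases smul_eq_zero.mp h.symm with h' | h'
    · linarith
    · exact h'
  · right
    have : l = -1 := by
      apply mul_right_cancel₀ e0
      rw [← h2]; ring
    refine ⟨this, ?_⟩
    rw [this] at h
    have := congrArg Neg.neg h
    simpa using this.symm

/-- the key step -/
theorem wedge_f_mem [FiniteDimensional ℝ U] (hclos : S_clos) {B : U →ₗ[ℝ] U →ₗ[ℝ] ℝ}
    {h n : Submodule ℝ (End ℝ U)} (D : Dat B h n) {e f : U} (hef : Hyp B e f)
    (hx : wedge B f e ∈ h) (v : U) : wedge B f v ∈ h := by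
  have hsym := D.sig.1
  obtain ⟨hee, hff, hef'⟩ := id hef
  have hfe : B f e = 1 := by rw [hsym, hef']
  have he0 : e ≠ 0 := by rintro rfl; simp at hef'
  set x := wedge B f e with hxd
  have xe : x e = e := by simp [hxd, wedge_apply, hfe, hee]
  have xf : x f = -f := by simp [hxd, wedge_apply, hef', hff]
  have hdiag : Diag x := by
    unfold Diag
    rw [eq_top_iff]
    intro v _
    have hw : v - (B f v) • e - (B e v) • f ∈ ⨆ μ : ℝ, End.eigenspace x μ := by
      apply Submodule.mem_iSup_of_mem 0
      rw [End.mem_eigenspace_iff, zero_smul, map_sub, map_sub, map_smul, map_smul, xe, xf, hxd,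
        wedge_apply]
      module
    have he : e ∈ ⨆ μ : ℝ, End.eigenspace x μ := by
      apply Submodule.mem_iSup_of_mem 1
      rw [End.mem_eigenspace_iff, xe, one_smul]
    have hf : f ∈ ⨆ μ : ℝ, End.eigenspace x μ := by
      apply Submodule.mem_iSup_of_mem (-1)
      rw [End.mem_eigenspace_iff, xf]; simp
    have : v = (v - (B f v) • e - (B e v) • f) + ((B f v) • e + (B e v) • f) := by abel
    rw [this]
    exact Submodule.add_mem _ hw (Submodule.add_mem _ (Submodule.smul_mem _ _ he)
      (Submodule.smul_mem _ _ hf))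
  let M1 : Submodule ℝ U := h.comap (wedgeR B f)
  have hM1 : ∀ v, v ∈ M1 ↔ wedge B f v ∈ h := fun v => Iff.rfl
  let L1 : Submodule ℝ U := Submodule.span ℝ {e}
  have hLM : L1 ≤ M1 := by
    rw [Submodule.span_le]
    rintro _ rfl
    exact hx
  have hJ : ∀ N : Submodule ℝ U, JStable (N.prod N) := by
    intro N p hp
    rw [Submodule.mem_prod] at hp ⊢
    exact ⟨N.neg_mem hp.2, hp.1⟩
  have key := hclos U x h hdiag hx D.lie D.irr (L1.prod L1) (M1.prod M1) (hJ _) (hJ _)
    (Submodule.prod_mono hLM hLM) ?_ ?_ ?_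
  · have : (v, v) ∈ M1.prod M1 := by rw [key]; trivial
    exact (hM1 v).mp (Submodule.mem_prod.mp this).1
  · intro hbot
    have : ((e, 0) : U × U) ∈ L1.prod L1 :=
      Submodule.mem_prod.mpr ⟨Submodule.mem_span_singleton_self e, L1.zero_mem⟩
    rw [hbot, Submodule.mem_bot] at this
    exact he0 (congrArg Prod.fst this)
  · intro α hα y hy hh p hp
    have ye : y e = 0 := by
      have h1 : x (y e) = (1 + α) • y e := by
        have := LinearMap.congr_fun hh e
        simp only [LinearMap.sub_apply, Module.End.mul_apply, LinearMap.smul_apply, xe] at this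
        rw [add_smul, one_smul, ← this]; abel
      -- use `-x = wedge e f`
      have h2 : wedge B e f (y e) = (-(1 + α)) • y e := by
        rw [wedge_swap, LinearMap.neg_apply, ← hxd, h1, neg_smul]
      rcases eig_wedge hsym (e := f) (f := e) ⟨hff, hee, hfe⟩ h2 (by linarith) with h3 | h3
      · exact h3
      · exfalso; linarith [h3.1]
    have : ∀ u ∈ L1, y u = 0 := by
      intro u hu
      obtain ⟨c, rfl⟩ := Submodule.mem_span_singleton.mp hu
      rw [map_smul, ye, smul_zero]
    rw [Submodule.mem_prod] at hp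
    exact ⟨this _ hp.1, this _ hp.2⟩
  · intro α hα y hy hh p hp
    rw [Submodule.mem_prod] at hp ⊢
    have hsk := D.skew y hy
    have h1 : x (y f) = (α - 1) • y f := by
      have := LinearMap.congr_fun hh f
      simp only [LinearMap.sub_apply, Module.End.mul_apply, LinearMap.smul_apply, xf, map_neg,
        sub_neg_eq_add] at this
      rw [sub_smul, one_smul, ← this]; abel
    have h2 : ∀ u, wedge B f u ∈ h → wedge B (y f) u ∈ h := by
      intro u hu
      rcases eig_wedge hsym hef h1 (by linarith) with h3 | h3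
      · rw [h3, wedge_zero_left]; exact h.zero_mem
      · rw [h3.2, wedge_smul_left]; exact h.smul_mem _ hu
    have h3 : ∀ u ∈ M1, y u ∈ M1 := by
      intro u hu
      rw [hM1] at hu ⊢
      have := D.lie y hy _ hu
      rw [wedge_brk hsk] at this
      have h4 := h.sub_mem this (h2 u hu)
      rwa [add_sub_cancel_left] at h4
    exact ⟨h3 _ hp.1, h3 _ hp.2⟩

theorem wedge_f_mem_n [FiniteDimensional ℝ U] (hclos : S_clos) {B : U →ₗ[ℝ] U →ₗ[ℝ] ℝ}
    {h n : Submodule ℝ (End ℝ U)} (D : Dat B h n) {e f : U} (hef : Hyp B e f)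
    (hx : wedge B f e ∈ n) (v : U) : wedge B f v ∈ n := by
  have hsym := D.sig.1
  obtain ⟨hee, hff, hef'⟩ := id hef
  have hfe : B f e = 1 := by rw [hsym, hef']
  have h1 := wedge_f_mem hclos D hef (D.sub hx) v
  have h2 := D.ideal _ h1 _ hx
  have hsk : Skew B (wedge B f e) := D.skew _ (D.sub hx)
  have h3 := wedge_brk hsk f v
  have xf : wedge B f e f = -f := by simp [wedge_apply, hef', hff]
  have e1 : wedge B f v * wedge B f e - wedge B f e * wedge B f v =
      wedge B f v - (B f v) • wedge B f e := by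
    have : wedge B f v * wedge B f e - wedge B f e * wedge B f v =
      -(wedge B f e * wedge B f v - wedge B f v * wedge B f e) := by abel
    rw [this, h3, xf, wedge_apply, sub_eq_add_neg ((B f v) • e), wedge_add_right, ← neg_smul,
      wedge_smul_right, wedge_smul_right, wedge_self]
    have : wedge B (-f) v = -wedge B f v := by
      have := wedge_smul_left B f v (-1)
      simpa using this
    rw [this]
    simp only [smul_zero]
    abel
  rw [e1] at h2
  have := n.add_mem h2 (n.smul_mem (B f v) hx)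
  simpa using this

end

theorem t_RK (hclos : S_clos) : S_rk := by
  intro U _ _ _ B h n D e f hef hx y hy
  have hsym := D.sig.1
  obtain ⟨hee, hff, hef'⟩ := id hef
  have hfe : B f e = 1 := by rw [hsym, hef']
  have hf := wedge_f_mem_n hclos D hef hx
  have hx' : wedge B e f ∈ n := by rw [wedge_swap]; exact n.neg_mem hx
  have he := wedge_f_mem_n hclos D (e := f) (f := e) ⟨hff, hee, hfe⟩ hx'
  apply skew_mem D.sig _ hy
  intro u v
  have hsk : Skew B (wedge B f u) := D.skew _ (D.sub (hf u))
  have h1 := D.ideal _ (D.sub (hf u)) _ (he v)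
  rw [wedge_brk hsk] at h1
  have h2 : wedge B f u e = u - (B u e) • f := by
    rw [wedge_apply, hfe, one_smul]
  rw [h2, sub_eq_add_neg, wedge_add_left, ← neg_smul, wedge_smul_left] at h1
  have h3 := n.sub_mem (n.sub_mem h1 (he (wedge B f u v))) (n.smul_mem (-(B u e)) (hf v))
  have e1 : wedge B u v + -(B u e) • wedge B f v + wedge B e (wedge B f u v) -
      wedge B e (wedge B f u v) - -(B u e) • wedge B f v = wedge B u v := by abel
  rwa [e1] at h3

end Pool.Agent.V5helper11.DRB
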