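import Pool.Agent.W544.K3.Defs

open Module Finset

namespace Pool.Agent.V5helper11.DRB

open Pool.Agent.W544.K3

section
variable {U : Type} [AddCommGroup U] [Module ℝ U]

/-- three pairwise orthogonal vectors, two positive and one of non-negative square -/
theorem no_three [FiniteDimensional ℝ U] {B : U →ₗ[ℝ] U →ₗ[ℝ] ℝ} (hB : Sig2 B) {u₁ u₂ u₃ : U}
    (h1 : 0 < B u₁ u₁) (h2 : 0 < B u₂ u₂) (h3 : 0 ≤ B u₃ u₃) (h12 : B u₁ u₂ = 0)
    (h13 : B u₁ u₃ = 0) (h23 : B u₂ u₃ = 0) : u₃ = 0 := by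
  obtain ⟨hs, p, q, _, _, _, hneg⟩ := hB
  by_contra hne
  let φ : (Fin 3 → ℝ) →ₗ[ℝ] (Fin 2 → ℝ) := Matrix.toLin'
    (!![B u₁ p, B u₂ p, B u₃ p; B u₁ q, B u₂ q, B u₃ q] : Matrix (Fin 2) (Fin 3) ℝ)
  have hk : LinearMap.ker φ ≠ ⊥ := by
    apply LinearMap.ker_ne_bot_of_finrank_lt
    simp
  obtain ⟨c, hc, hc0⟩ := Submodule.exists_mem_ne_zero_of_ne_bot hk
  have e0 := congrFun (LinearMap.mem_ker.mp hc) 0
  have e1 := congrFun (LinearMap.mem_ker.mp hc) 1
  simp [φ, Matrix.toLin'_apply, Matrix.mulVec, dotProduct, Fin.sum_univ_three] at e0 e1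
  set w : U := c 0 • u₁ + c 1 • u₂ + c 2 • u₃ with hw
  have hwp : B w p = 0 := by
    simp only [hw, map_add, map_smul, LinearMap.add_apply, LinearMap.smul_apply, smul_eq_mul]
    linarith
  have hwq : B w q = 0 := by
    simp only [hw, map_add, map_smul, LinearMap.add_apply, LinearMap.smul_apply, smul_eq_mul]
    linarith
  have hww : B w w = c 0 ^ 2 * B u₁ u₁ + c 1 ^ 2 * B u₂ u₂ + c 2 ^ 2 * B u₃ u₃ := by
    simp only [hw, map_add, map_smul, LinearMap.add_apply, LinearMap.smul_apply, smul_eq_mul,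
      h12, h13, h23, hs u₂ u₁, hs u₃ u₁, hs u₃ u₂]
    ring
  have hw0 : w = 0 := by
    by_contra hw0
    have := hneg w hw0 hwp hwq
    rw [hww] at this
    nlinarith [mul_nonneg (sq_nonneg (c 0)) h1.le, mul_nonneg (sq_nonneg (c 1)) h2.le,
      mul_nonneg (sq_nonneg (c 2)) h3]
  have k1 : B u₁ w = 0 := by rw [hw0]; simp
  have k2 : B u₂ w = 0 := by rw [hw0]; simp
  simp only [hw, map_add, map_smul, smul_eq_mul, h12, h13, h23, hs u₂ u₁, mul_zero, add_zero,
    zero_add] at k1 k2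
  have c0 : c 0 = 0 := by
    rcases mul_eq_zero.mp k1 with h | h
    · exact h
    · exact absurd h h1.ne'
  have c1 : c 1 = 0 := by
    rcases mul_eq_zero.mp k2 with h | h
    · exact h
    · exact absurd h h2.ne'
  have c2 : c 2 = 0 := by
    rw [hw, c0, c1] at hw0
    simp only [zero_smul, zero_add] at hw0
    rcases smul_eq_zero.mp hw0 with h | h
    · exact h
    · exact absurd h hne
  apply hc0
  funext i
  fin_cases i
  · exact c0
  · exact c1
  · exact c2

theorem nondeg {B : U →ₗ[ℝ] U →ₗ[ℝ] ℝ} (hB : Sig2 B) {v : U} (h : ∀ w, B v w = 0) : v = 0 := by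
  obtain ⟨_, p, q, _, _, _, hneg⟩ := hB
  by_contra hv
  have := hneg v hv (h p) (h q)
  rw [h v] at this
  exact lt_irrefl _ this

theorem exists_pair {B : U →ₗ[ℝ] U →ₗ[ℝ] ℝ} (hB : Sig2 B) {x : End ℝ U} (hx : x ≠ 0)
    (hs : Skew B x) (hd : Diag x) :
    ∃ (a : ℝ) (e f : U), 0 < a ∧ Hyp B e f ∧ x e = a • e ∧ x f = -(a • f) := by
  have hsym := hB.1
  -- orthogonality of eigenspaces
  have orth : ∀ (m m' : ℝ) (u v : U), x u = m • u → x v = m' • v → (m + m') * B u v = 0 := by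
    intro m m' u v hu hv
    have := hs u v
    rw [hu, hv] at this
    simp only [map_smul, LinearMap.smul_apply, smul_eq_mul] at this
    linarith
  -- a non-zero eigenvalue
  have h1 : ∃ (μ : ℝ) (e : U), μ ≠ 0 ∧ e ≠ 0 ∧ x e = μ • e := by
    by_contra hcon
    push Not at hcon
    apply hx
    have : (⊤ : Submodule ℝ U) ≤ LinearMap.ker x := by
      rw [← hd]
      refine iSup_le fun μ v hv => ?_
      rw [End.mem_eigenspace_iff] at hv
      rw [LinearMap.mem_ker]
      by_cases hμ : μ = 0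
      · rw [hv, hμ, zero_smul]
      · by_cases hv0 : v = 0
        · rw [hv0, map_zero]
        · exact absurd hv (hcon μ v hμ hv0)
    ext v
    exact LinearMap.mem_ker.mp (this (Submodule.mem_top))
  obtain ⟨μ, e, hμ, he, hxe⟩ := h1
  -- a dual eigenvector
  have h2 : ∃ f : U, x f = (-μ) • f ∧ B e f = 1 := by
    by_contra hcon
    push Not at hcon
    apply he
    apply nondeg hB
    intro w
    have : (⊤ : Submodule ℝ U) ≤ LinearMap.ker (B e) := by
      rw [← hd]
      refine iSup_le fun ν v hv => ?_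
      rw [End.mem_eigenspace_iff] at hv
      rw [LinearMap.mem_ker]
      by_contra hne
      have hν : μ + ν = 0 := by
        rcases mul_eq_zero.mp (orth μ ν e v hxe hv) with h | h
        · exact h
        · exact absurd h hne
      have hν' : ν = -μ := by linarith
      apply hcon ((B e v)⁻¹ • v)
      · rw [map_smul, hv, hν', smul_comm]
      · rw [map_smul, smul_eq_mul, inv_mul_cancel₀ hne]
    exact LinearMap.mem_ker.mp (this (Submodule.mem_top))
  obtain ⟨f, hxf, hef⟩ := h2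
  have hee : B e e = 0 := by
    rcases mul_eq_zero.mp (orth μ μ e e hxe hxe) with h | h
    · exact absurd (by linarith) hμ
    · exact h
  have hff : B f f = 0 := by
    rcases mul_eq_zero.mp (orth (-μ) (-μ) f f hxf hxf) with h | h
    · exact absurd (by linarith) hμ
    · exact h
  rcases lt_or_gt_of_ne hμ with h | h
  · refine ⟨-μ, f, e, by linarith, ⟨hff, hee, ?_⟩, hxf, ?_⟩
    · rw [hsym, hef]
    · rw [hxe, neg_smul, neg_neg]
  · exact ⟨μ, e, f, h, ⟨hee, hff, hef⟩, hxe, by rw [hxf, neg_smul]⟩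

theorem skew_wedge {B : U →ₗ[ℝ] U →ₗ[ℝ] ℝ} (hs : ∀ u v, B u v = B v u) (u v : U) :
    Skew B (wedge B u v) := by
  intro w z
  simp only [wedge_apply, map_sub, map_smul, LinearMap.sub_apply, LinearMap.smul_apply,
    smul_eq_mul, hs w v, hs w u]
  ring

theorem sub_wedge {B : U →ₗ[ℝ] U →ₗ[ℝ] ℝ} (hsym : ∀ u v, B u v = B v u) {x : End ℝ U}
    (hs : Skew B x) (hd : Diag x) {a : ℝ} {e f : U} (hef : Hyp B e f) (hxe : x e = a • e)
    (hxf : x f = -(a • f)) :
    Skew B (x - a • wedge B f e) ∧ Diag (x - a • wedge B f e) ∧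
      (x - a • wedge B f e) e = 0 ∧ (x - a • wedge B f e) f = 0 := by
  obtain ⟨hee, hff, hef⟩ := hef
  have hfe : B f e = 1 := by rw [hsym, hef]
  have ye : (x - a • wedge B f e) e = 0 := by
    simp [wedge_apply, hxe, hfe, hee]
  have yf : (x - a • wedge B f e) f = 0 := by
    simp [wedge_apply, hxf, hef, hff]
  refine ⟨?_, ?_, ye, yf⟩
  · intro u v
    have h1 := hs u v
    have h2 := skew_wedge hsym f e u v
    simp only [LinearMap.sub_apply, LinearMap.smul_apply, map_sub, map_smul, smul_eq_mul]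
    linear_combination h1 - a * h2
  · unfold Diag
    rw [eq_top_iff, ← hd]
    refine iSup_le fun ν v hv => ?_
    rw [End.mem_eigenspace_iff] at hv
    have o1 : ν * B f v = a * B f v := by
      have := hs f v
      rw [hxf, hv] at this
      simp only [map_neg, map_smul, LinearMap.neg_apply, LinearMap.smul_apply, smul_eq_mul] at this
      linarith
    have o2 : ν * B e v = -(a * B e v) := by
      have := hs e v
      rw [hxe, hv] at this
      simp only [map_smul, LinearMap.smul_apply, smul_eq_mul] at this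
      linarith
    have hw : v - (B f v) • e - (B e v) • f ∈
        ⨆ μ : ℝ, End.eigenspace (x - a • wedge B f e) μ := by
      apply Submodule.mem_iSup_of_mem ν
      rw [End.mem_eigenspace_iff, map_sub, map_sub, map_smul, map_smul, ye, yf]
      simp only [smul_zero, sub_zero, LinearMap.sub_apply, LinearMap.smul_apply, wedge_apply, hv,
        smul_sub, smul_smul, o1, o2]
      module
    have he : e ∈ ⨆ μ : ℝ, End.eigenspace (x - a • wedge B f e) μ := by
      apply Submodule.mem_iSup_of_mem 0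
      rw [End.mem_eigenspace_iff, ye, zero_smul]
    have hf : f ∈ ⨆ μ : ℝ, End.eigenspace (x - a • wedge B f e) μ := by
      apply Submodule.mem_iSup_of_mem 0
      rw [End.mem_eigenspace_iff, yf, zero_smul]
    have : v = (v - (B f v) • e - (B e v) • f) + ((B f v) • e + (B e v) • f) := by abel
    rw [this]
    exact Submodule.add_mem _ hw (Submodule.add_mem _ (Submodule.smul_mem _ _ he)
      (Submodule.smul_mem _ _ hf))

end

theorem t_STRUCT : S_struct := by
  intro U _ _ _ B hB x hx hs hd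
  have hsym := hB.1
  obtain ⟨a, e₁, f₁, ha, hp1, hxe1, hxf1⟩ := exists_pair hB hx hs hd
  obtain ⟨ys, yd, ye, yf⟩ := sub_wedge hsym hs hd hp1 hxe1 hxf1
  set y := x - a • wedge B f₁ e₁ with hy
  by_cases hy0 : y = 0
  · left
    exact ⟨a, e₁, f₁, ha.ne', hp1, sub_eq_zero.mp hy0⟩
  right
  obtain ⟨b, e₂, f₂, hb, hp2, hye2, hyf2⟩ := exists_pair hB hy0 ys yd
  obtain ⟨zs, zd, ze, zf⟩ := sub_wedge hsym ys yd hp2 hye2 hyf2
  -- orthogonality
  have orth : ∀ (w : End ℝ U), Skew B w → ∀ (c : ℝ) (u v : U), c ≠ 0 → w u = c • u → w v = 0 →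
      B v u = 0 := by
    intro w hw c u v hc hu hv
    have := hw u v
    rw [hu, hv] at this
    simp only [map_smul, LinearMap.smul_apply, smul_eq_mul, map_zero, add_zero] at this
    rw [hsym]
    rcases mul_eq_zero.mp this with h | h
    · exact absurd h hc
    · exact h
  have hyf2' : y f₂ = (-b) • f₂ := by rw [hyf2, neg_smul]
  have o1 : B e₁ e₂ = 0 := orth y ys b e₂ e₁ hb.ne' hye2 ye
  have o2 : B e₁ f₂ = 0 := orth y ys (-b) f₂ e₁ (by linarith) hyf2' ye
  have o3 : B f₁ e₂ = 0 := orth y ys b e₂ f₁ hb.ne' hye2 yf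
  have o4 : B f₁ f₂ = 0 := orth y ys (-b) f₂ f₁ (by linarith) hyf2' yf
  obtain ⟨hee1, hff1, hef1⟩ := hp1
  obtain ⟨hee2, hff2, hef2⟩ := hp2
  have neg : ∀ v, v ≠ 0 → B e₁ v = 0 → B f₁ v = 0 → B e₂ v = 0 → B f₂ v = 0 → B v v < 0 := by
    intro v hv h1 h2 h3 h4
    by_contra hcon
    apply hv
    apply no_three hB (u₁ := e₁ + f₁) (u₂ := e₂ + f₂) (u₃ := v)
    · simp only [map_add, LinearMap.add_apply, hee1, hff1, hef1, hsym f₁ e₁]; norm_num
    · simp only [map_add, LinearMap.add_apply, hee2, hff2, hef2, hsym f₂ e₂]; norm_num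
    · exact not_lt.mp hcon
    · simp only [map_add, LinearMap.add_apply, o1, o2, o3, o4]; norm_num
    · simp only [map_add, LinearMap.add_apply, h1, h2]; norm_num
    · simp only [map_add, LinearMap.add_apply, h3, h4]; norm_num
  have hz0 : y - b • wedge B f₂ e₂ = 0 := by
    by_contra hz0
    obtain ⟨c, e₃, f₃, hc, hp3, hze3, hzf3⟩ := exists_pair hB hz0 zs zd
    have ze1 : (y - b • wedge B f₂ e₂) e₁ = 0 := by
      simp [wedge_apply, ye, hsym f₂ e₁, hsym e₂ e₁, o1, o2]
    have zf1 : (y - b • wedge B f₂ e₂) f₁ = 0 := by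
      simp [wedge_apply, yf, hsym f₂ f₁, hsym e₂ f₁, o3, o4]
    have q1 := orth _ zs c e₃ e₁ hc.ne' hze3 ze1
    have q2 := orth _ zs c e₃ f₁ hc.ne' hze3 zf1
    have q3 := orth _ zs c e₃ e₂ hc.ne' hze3 ze
    have q4 := orth _ zs c e₃ f₂ hc.ne' hze3 zf
    have hne : e₃ ≠ 0 := by
      rintro rfl
      have := hp3.2.2
      simp at this
    have := neg e₃ hne q1 q2 q3 q4
    rw [hp3.1] at this
    exact lt_irrefl _ this
  have hx' : x = a • wedge B f₁ e₁ + b • wedge B f₂ e₂ := by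
    have h1 := sub_eq_zero.mp hz0
    rw [← h1, hy]
    abel
  rcases le_total b a with hba | hab
  · exact ⟨a, b, e₁, f₁, e₂, f₂, hb, hba, ⟨hsym, ⟨hee1, hff1, hef1⟩, ⟨hee2, hff2, hef2⟩,
      o1, o2, o3, o4, neg⟩, hx'⟩
  · refine ⟨b, a, e₂, f₂, e₁, f₁, ha, hab, ⟨hsym, ⟨hee2, hff2, hef2⟩, ⟨hee1, hff1, hef1⟩,
      ?_, ?_, ?_, ?_, ?_⟩, ?_⟩
    · rw [hsym, o1]
    · rw [hsym, o3]
    · rw [hsym, o2]
    · rw [hsym, o4]
    · intro v hv h1 h2 h3 h4
      exact neg v hv h3 h4 h1 h2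
    · rw [hx', add_comm]

end Pool.Agent.V5helper11.DRB
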